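import Mathlib
import Pool.Agent.H92.Ld.Full0
import Pool.Agent.W66.LU

set_option autoImplicit false

/-!
# Repunits and the last digits of a random sequence of digits

For a sequence `d 0, d 1, d 2, …` of digits in base `b` and a prime `p` let `W d p` be the `p`-rough
part (the product, with multiplicity, of the prime factors larger than `p`) of the integer
`∑_{i < p} d i * b ^ i` whose last `p` digits are `d (p - 1), …, d 1, d 0`.  When all digits are `1`
this is the repunit with `p` digits itself, for every prime `p` not dividing `b - 1` (in base ten, for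
every prime `p ≠ 3`).  For a set `S` let `M S d n` be the number of primes `p ≤ n` in `S` with `W d p`
prime, and let `V S n` be the sum of `log p / p` over the primes `p ≤ n` in `S`.  We prove, in every
base, that for almost every sequence of digits (independent, uniformly distributed) whose last digit
is prime to `b` the number of primes `p ≤ n` with `W d p` prime is
`(e ^ γ / log b) log n + O((log n) ^ (1/2) (log log n) ^ (5/2))`, that for every set `S` and almost
every such sequence there are infinitely many such primes `p` in `S` if and only if `V S n` is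
unbounded, and that in this case
`M S d n = (e ^ γ / log b) V S n + O((V L) ^ (1/2) (log (V L)) ^ 2)` with `V = V S n` and
`L = log log n`.
-/

namespace Pool.Agent.Results.MP_adea1b_nt.LastDigits

open Filter Topology MeasureTheory Asymptotics

/-- The product, with multiplicity, of the prime factors of `m` that are larger than `p`. -/
def roughPart (p m : ℕ) : ℕ := (m.primeFactorsList.filter (fun r => p < r)).prod

/-- The `p`-rough part of the integer with the base `b` digits `d (p - 1), …, d 1, d 0`. -/
def W {b : ℕ} (d : ℕ → Fin b) (p : ℕ) : ℕ := roughPart p (∑ i ∈ Finset.range p, (d i : ℕ) * b ^ i)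

open Classical in
/-- The number of primes `p ≤ n` in the set `S` for which `W d p` is prime. -/
noncomputable def M {b : ℕ} (S : Set ℕ) (d : ℕ → Fin b) (n : ℕ) : ℕ :=
  ((Finset.range (n + 1)).filter (fun p => p.Prime ∧ p ∈ S ∧ (W d p).Prime)).card

open Classical in
/-- The sum of `log p / p` over the primes `p ≤ n` in the set `S`. -/
noncomputable def V (S : Set ℕ) (n : ℕ) : ℝ :=
  ∑ p ∈ (Finset.range (n + 1)).filter (fun p => p.Prime ∧ p ∈ S), Real.log p / p

/-- The distribution of a sequence of independent uniformly distributed base `b` digits. -/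
noncomputable def digits (b : ℕ) : Measure (ℕ → Fin b) :=
  Measure.infinitePi (fun _ : ℕ => ProbabilityTheory.uniformOn (Set.univ : Set (Fin b)))

lemma V_eq (S : Set ℕ) (n : ℕ) : V S n = Pool.Agent.TH888.R.VS S n := by
  classical
  unfold V Pool.Agent.TH888.R.VS
  rw [Finset.sum_filter]
  refine Finset.sum_congr rfl fun p _ => ?_
  by_cases h : p.Prime ∧ p ∈ S
  · rw [if_pos h, if_pos ⟨h.2, h.1⟩]
    rfl
  · rw [if_neg h, if_neg fun h1 => h ⟨h1.2, h1.1⟩]

lemma M_eq {b : ℕ} (S : Set ℕ) (d : ℕ → Fin b) (n : ℕ) :
    M S d n = Pool.Agent.TH888.R.cS S (fun p => Pool.Agent.W66L.dsum b p d) n := by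
  classical
  unfold M Pool.Agent.TH888.R.cS
  rfl

/-- When all digits are `1` the values are the repunits, and for almost every sequence of digits whose
last digit is prime to the base the law holds with a square root error term; for each fixed set of
primes, for almost every such sequence (with a null set that depends on the set), the number of prime
values is finite or infinite according to the weight of the set, and in the second case it obeys the
corresponding law. -/
theorem result :
    (∀ (b : ℕ) (d : ℕ → Fin b), 2 ≤ b → (∀ i, (d i : ℕ) = 1) →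
      ∀ p : ℕ, p.Prime → ¬ p ∣ b - 1 → W d p = ∑ i ∈ Finset.range p, b ^ i) ∧
    (∀ b : ℕ, 2 ≤ b → ∀ᵐ d ∂(digits b), (d 0 : ℕ).Coprime b →
      (fun n : ℕ => (M Set.univ d n : ℝ) -
        Real.exp Real.eulerMascheroniConstant / Real.log b * Real.log n) =O[atTop]
      (fun n : ℕ => Real.sqrt (Real.log n) * (Real.log (Real.log n)) ^ ((5 : ℝ) / 2))) ∧
    (∀ b : ℕ, 2 ≤ b → ∀ S : Set ℕ, Tendsto (V S) atTop atTop →
      ∀ᵐ d ∂(digits b), (d 0 : ℕ).Coprime b →
      (fun n : ℕ => (M S d n : ℝ) -
        Real.exp Real.eulerMascheroniConstant / Real.log b * V S n) =O[atTop]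
      (fun n : ℕ => Real.sqrt (V S n * Real.log (Real.log n)) *
        (Real.log (V S n * Real.log (Real.log n))) ^ 2)) ∧
    (∀ b : ℕ, 2 ≤ b → ∀ S : Set ℕ, ∀ᵐ d ∂(digits b), (d 0 : ℕ).Coprime b →
      ({p : ℕ | p.Prime ∧ p ∈ S ∧ (W d p).Prime}.Infinite ↔ Tendsto (V S) atTop atTop)) := by
  have hV : ∀ S, V S = Pool.Agent.TH888.R.VS S := fun S => funext fun n => V_eq S n
  have hpt : ∀ b : ℕ, 2 ≤ b → ∀ S : Set ℕ, ∀ᵐ d ∂(digits b), (d 0 : ℕ).Coprime b →
      Pool.Agent.TH888.R.Pt (fun p => Pool.Agent.W66L.dsum b p d)
      (Real.exp Real.eulerMascheroniConstant / Real.log b) S := by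
    intro b hb S
    haveI : NeZero b := ⟨by omega⟩
    have h := Pool.Agent.H92.Ld.pt_all hb (Pool.Agent.W66L.full_digits b) S
    have hd : digits b = Pool.Agent.W66L.digitMeasure b := rfl
    rw [hd]
    filter_upwards [h] with d h1 h0
    apply h1
    have e : Pool.Agent.W66L.dsum b 1 d = (d 0 : ℕ) := by
      unfold Pool.Agent.W66L.dsum
      simp
    rw [e]
    exact h0
  have hset : ∀ (b : ℕ) (S : Set ℕ) (d : ℕ → Fin b), {p : ℕ | p.Prime ∧ p ∈ S ∧ (W d p).Prime} =
      {p : ℕ | p.Prime ∧ p ∈ S ∧ (Pool.Agent.H305R2.roughPart p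
        (Pool.Agent.W66L.dsum b p d)).Prime} := by
    intro b S d
    rfl
  refine ⟨fun b d hb hd p hp hpb => ?_, fun b hb => ?_, fun b hb S hS => ?_, fun b hb S => ?_⟩
  · have h := Pool.Agent.W66L.rough_repunit hb hp hpb
    have e : (∑ i ∈ Finset.range p, (d i : ℕ) * b ^ i) = ∑ i ∈ Finset.range p, b ^ i :=
      Finset.sum_congr rfl fun i _ => by rw [hd i, one_mul]
    unfold W
    rw [e]
    exact h
  · filter_upwards [hpt b hb Set.univ] with d hd h0
    obtain ⟨B, hB, h⟩ := (hd h0).law Pool.Agent.TH888.R.VS_univ_tendsto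
    simp only [M_eq]
    exact Pool.Agent.TH888.R.bigO_all hB h
  · rw [hV] at hS ⊢
    filter_upwards [hpt b hb S] with d hd h0
    obtain ⟨B, hB, h⟩ := (hd h0).law hS
    simp only [M_eq]
    exact Pool.Agent.TH888.R.bigO_set hB hS h
  · rw [hV]
    filter_upwards [hpt b hb S] with d hd h0
    rw [hset]
    constructor
    · intro hi
      by_contra hn
      exact hi ((hd h0).fin hn)
    · exact (hd h0).inf

end Pool.Agent.Results.MP_adea1b_nt.LastDigits
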