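import Pool.Agent.H95RU.FamR
import Pool.Agent.H95RU.TAU
import Pool.Agent.H95RU.AVX
import Pool.Agent.H95RU.ROM
import Pool.Agent.H95RU.DAV
import Pool.Agent.H95RU.CNT
import Pool.Agent.H95RU.ONE
import Pool.Agent.H95RU.TWO

/-!
# Almost primes among the numbers near the repunits: a string of digits followed (or preceded) by ones

`R b n` is the repunit with `n` digits in base `b`. For an integer `k ≥ 1` consider the numbers whose digits in base
`b` are the digits of `k` followed by `n` digits `1`, `n = 1, 2, 3, …`. For `k = 1` these are the repunits of the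
question. If `k = 1` modulo the product `P w` of the primes up to `w`, then they have the same divisibility by the
primes up to `w` as the repunits `R b (n + 1)`. The same holds for the numbers whose digits are `n` digits `1`
followed by a string `k` of `L` digits, if `k = R b L` modulo `P w`, with the repunits `R b (n + L)`.

We prove a law of large numbers: for every `ε > 0` and all large `w` the following holds for all but at most a
proportion `ε` of the `k` in these residue classes (in every window of length a power of `y`). The number of the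
lengths `n ≤ N` for which the number has no prime factor up to `y` is the number of the `n ≤ N` for which the
repunit has no prime factor up to `w`, times the product of `1 - 1 / p` over the primes `w < p ≤ y`, up to a factor
`1 + O(ε)`, as soon as `N` is at least a constant times `log y`. Hence for all but a proportion `ε` of the `k ≤ X`
in the class of `1` there is a length `n ≤ log X` for which `k` followed by `n` ones is an almost prime (at most `r`
prime factors, all of them larger than `X ^ (1 / r)`), and similarly for `n ≤ L` ones followed by a string of `L`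
digits. The law holds in every residue class modulo `P w` which is not nearly covered (`NotCovered`).

Proof: second moment over `k`. For two lengths `n < m` the classes of `k` modulo `p > w` coincide if and only if `p`
divides `R b (m - n)`; the collisions are controlled by the method of Romanoff, in the quantitative form
`∑ 1 / (p ord_p(b)) ≤ C w ^ (-1 / 4)` over the primes `p > w`. So their contribution is smaller than the square of
the density `≥ c / log w` of the repunits without prime factor up to `w`.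

Stubs proved by helper9 (TAU), helper21 (AVX), helper85 (ROM, DAV), helper66 (CNT), helper33 (ONE) and helper86
(TWO); second moment and assembly helper95. Libraries of the starting files: `Pool.Agent.Y820.LT` (Romanoff's sum
with arbitrary powers) and `Pool.Agent.H373R2.T7` (fundamental lemma).
-/

set_option autoImplicit false

namespace Pool.Agent.Results.MP_adea1b_nt.NumbersNearRepunits

open Finset

/-- The repunit with `n` digits in base `b`. -/
def R (b n : ℕ) : ℕ := ∑ i ∈ range n, b ^ i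

/-- The number whose digits in base `b` are the digits of `k` followed by `n` digits `1`. -/
def followed (b k n : ℕ) : ℕ := k * b ^ n + R b n

/-- The number whose digits in base `b` are `n` digits `1` followed by the `L` digits of `k` (for `k < b ^ L`,
written with leading zeros if necessary). -/
def preceded (b L k n : ℕ) : ℕ := R b n * b ^ L + k

/-- `m` has no prime factor up to `y`. -/
def Rough (y m : ℕ) : Prop := ∀ p : ℕ, p.Prime → p ≤ y → ¬ p ∣ m

/-- The product of the primes up to `w`. -/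
def P (w : ℕ) : ℕ := ∏ p ∈ (Icc 1 w).filter Nat.Prime, p

/-- The product of `1 - 1 / p` over the primes `w < p ≤ y`. -/
noncomputable def V (w y : ℕ) : ℝ := ∏ p ∈ (Icc 1 y).filter (fun p => p.Prime ∧ w < p), (1 - 1 / (p : ℝ))

open Classical in
/-- The number of the `n` with `1 ≤ n ≤ N` for which `f n` has no prime factor up to `y`. -/
noncomputable def count (y N : ℕ) (f : ℕ → ℕ) : ℕ := ((Icc 1 N).filter (fun n => Rough y (f n))).card

/-- At least the proportion `w ^ (-1 / 20)` of the `f n`, `1 ≤ n ≤ N`, has no prime factor up to `w`. -/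
def NotCovered (w N : ℕ) (f : ℕ → ℕ) : Prop := (N : ℝ) ≤ count w N f * (w : ℝ) ^ (1 / 20 : ℝ)

open Classical in
/-- The number of the `j` with `Z < j ≤ Z + Y` for which, with `k = k₀ + P w * j`, the number of the `n ≤ N` for which
`F k n` has no prime factor up to `y` differs from the expected number `E = V w y * count w N (F k₀)` by more than
`ε E`. -/
noncomputable def exceptions (ε : ℝ) (w y N Z Y : ℕ) (F : ℕ → ℕ → ℕ) (k₀ : ℕ) : ℕ :=
  ((Ioc Z (Z + Y)).filter (fun j => ε * (V w y * count w N (F k₀)) <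
    |(count y N (F (k₀ + P w * j)) : ℝ) - V w y * count w N (F k₀)|)).card

/-- `m` has at most `r` prime factors (counted with multiplicity), all of them larger than `X ^ (1 / r)`. -/
def AlmostPrime (r X m : ℕ) : Prop := m.primeFactorsList.length ≤ r ∧ ∀ p : ℕ, p.Prime → p ∣ m → X < p ^ r

lemma V_eq (w y : ℕ) : V w y = Pool.Agent.H95RU.Vt w y := rfl

lemma V0_eq (y : ℕ) : V 0 y = Pool.Agent.H95RU.V y := by
  unfold V Pool.Agent.H95RU.V
  apply prod_congr _ (fun _ _ => rfl)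
  ext p
  rw [mem_filter, mem_filter]
  constructor
  · rintro ⟨h1, h2, _⟩
    exact ⟨h1, h2⟩
  · rintro ⟨h1, h2⟩
    exact ⟨h1, h2, h2.pos⟩

open Classical in
lemma count_eq (y N : ℕ) (f : ℕ → ℕ) :
    count y N f = ((Icc 1 N).filter (fun n => Pool.Agent.H95RU.Rough y (f n))).card := by
  unfold count
  rfl

lemma P_eq (w : ℕ) : P w = Pool.Agent.H95RU.P w := rfl

lemma R_eq (b n : ℕ) : R b n = Pool.Agent.H95RU.R b n := rfl

/-- the library theorem -/
lemma lib (b : ℕ) (hb : 2 ≤ b) (ε : ℝ) (hε : 0 < ε) :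
    ∃ w₀ : ℕ, b ≤ w₀ ∧ ∀ w : ℕ, w₀ ≤ w → ∃ (K : ℝ) (K₀ y₀ : ℕ), 1 ≤ K ∧ ∀ Z Y y N : ℕ, y₀ ≤ y → y ^ K₀ ≤ Y →
      K ≤ N * V 0 y → ∀ (F : ℕ → ℕ → ℕ) (k₀ : ℕ),
        (∃ a c : ℕ → ℕ, Pool.Agent.H95RU.FamR b w a c (F k₀) ∧ ∀ n j, F (k₀ + P w * j) n = a n + c n * j) →
        NotCovered w N (F k₀) → (exceptions ε w y N Z Y F k₀ : ℝ) ≤ ε * Y := by
  classical
  obtain ⟨ε', hε'⟩ : ∃ ε' : ℝ, ε' = min ε 1 := ⟨_, rfl⟩
  have hε'0 : 0 < ε' := by rw [hε']; positivity
  have hε'1 : ε' ≤ 1 := by rw [hε']; exact min_le_right _ _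
  have hε'ε : ε' ≤ ε := by rw [hε']; exact min_le_left _ _
  obtain ⟨w₀, hw₀, h⟩ := Pool.Agent.H95RU.llnR
    (Pool.Agent.H95RU.t_DAV (Pool.Agent.H95RU.t_AVX Pool.Agent.H95RU.t_TAU) Pool.Agent.H95RU.t_ROM)
    Pool.Agent.H95RU.t_ONE Pool.Agent.H95RU.t_TWO b hb ε' hε'0 hε'1
  refine ⟨max w₀ b, le_max_right _ _, fun w hw => ?_⟩
  obtain ⟨K, K₀, y₀, hK, h⟩ := h w ((le_max_left _ _).trans hw)
  refine ⟨K, K₀, y₀, hK, fun Z Y y N h1 h2 h3 F k₀ hF hN => ?_⟩
  obtain ⟨a, c, hfam, hac⟩ := hF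
  rw [V0_eq] at h3
  have h4 := h Z Y y N h1 h2 h3 a c (F k₀) hfam (by
    unfold NotCovered at hN
    rw [count_eq] at hN
    exact hN)
  have hE : 0 ≤ V w y * count w N (F k₀) := by
    rw [V_eq]
    exact mul_nonneg (Pool.Agent.H95RU.Vt_pos w y).le (Nat.cast_nonneg _)
  have hle : (exceptions ε w y N Z Y F k₀ : ℝ) ≤ ε' * Y := by
    refine le_trans ?_ h4
    unfold exceptions
    norm_cast
    apply card_le_card
    intro j hj
    simp only [mem_filter] at hj ⊢
    refine ⟨hj.1, ?_⟩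
    have h5 := hj.2
    have h6 : ε' * (V w y * count w N (F k₀)) ≤ ε * (V w y * count w N (F k₀)) :=
      mul_le_mul_of_nonneg_right hε'ε hE
    have h7 : F (k₀ + P w * j) = fun n => a n + c n * j := funext fun n => hac n j
    rw [h7] at h5
    rw [count_eq, count_eq] at h5
    rw [count_eq] at h6
    exact lt_of_le_of_lt h6 h5
  exact hle.trans (mul_le_mul_of_nonneg_right hε'ε (Nat.cast_nonneg Y))

lemma famA {b w : ℕ} (hb : 2 ≤ b) (hw : b ≤ w) (k₀ : ℕ) :
    ∃ a c : ℕ → ℕ, Pool.Agent.H95RU.FamR b w a c (followed b k₀) ∧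
      ∀ n j, followed b (k₀ + P w * j) n = a n + c n * j := by
  refine ⟨_, _, Pool.Agent.H95RU.famRA hb hw k₀, fun n j => ?_⟩
  unfold followed
  rw [P_eq, R_eq]
  ring

lemma famB {b w : ℕ} (hb : 2 ≤ b) (hw : b ≤ w) (L k₀ : ℕ) :
    ∃ a c : ℕ → ℕ, Pool.Agent.H95RU.FamR b w a c (preceded b L k₀) ∧
      ∀ n j, preceded b L (k₀ + P w * j) n = a n + c n * j := by
  refine ⟨_, _, Pool.Agent.H95RU.famRB hb hw L k₀, fun n j => ?_⟩
  unfold preceded
  rw [P_eq, R_eq]
  ring

/-- the repunits -/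
lemma class_one (b : ℕ) (hb : 2 ≤ b) : ∃ w₁ : ℕ, ∀ w : ℕ, w₁ ≤ w → ∃ N₁ : ℕ, ∀ N : ℕ, N₁ ≤ N →
    NotCovered w N (followed b 1) ∧
      ∀ L k₀ : ℕ, 1 ≤ L → k₀ ≡ R b L [MOD P w] → NotCovered w N (preceded b L k₀) := by
  obtain ⟨w₁, h⟩ := Pool.Agent.H95RU.repunit_class Pool.Agent.H95RU.t_CNT b hb
  refine ⟨w₁, fun w hw => ?_⟩
  obtain ⟨N₁, h⟩ := h w hw
  refine ⟨N₁, fun N hN => ⟨?_, fun L k₀ hL hk => ?_⟩⟩
  · unfold NotCovered
    rw [count_eq]
    refine h N hN 1 _ le_rfl fun n p _ _ => ?_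
    unfold followed
    rw [one_mul, R_eq, ← Pool.Agent.H95RU.R_succ]
  · unfold NotCovered
    rw [count_eq]
    refine h N hN L _ hL fun n p hp hpw => ?_
    unfold preceded
    have h1 : Pool.Agent.H95RU.R b (n + L) = R b n * b ^ L + R b L := by
      rw [R_eq, R_eq, Pool.Agent.H95RU.R_add]
    rw [h1]
    have h2 : R b n * b ^ L + k₀ ≡ R b n * b ^ L + R b L [MOD p] := by
      apply Nat.ModEq.add_left
      exact hk.of_dvd (Pool.Agent.H95RU.dvd_P hp hpw)
    exact h2.dvd_iff dvd_rfl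

open Classical in
/-- the passage to almost primes -/
lemma concl (ε ε' : ℝ) (w y N X k₀ : ℕ) (F : ℕ → ℕ → ℕ) (G : ℕ → Prop) (hk₀ : k₀ < P w) (hε' : 0 < ε') (hε'2 : ε' ≤ 1 / 2)
    (hεε : ε' ≤ ε / 2) (hbad : (exceptions ε' w y N 0 (X / P w) F k₀ : ℝ) ≤ ε' * ((X / P w : ℕ) : ℝ))
    (hN : 1 ≤ N) (hnc : NotCovered w N (F k₀)) (hX : 1 ≤ ε / 2 * ((X : ℝ) / P w))
    (hG : ∀ k ≤ X, ∀ n ∈ Icc 1 N, Rough y (F k n) → G k) :
    (((range (X + 1)).filter (fun k => k ≡ k₀ [MOD P w] ∧ ¬ G k)).card : ℝ) ≤ ε * ((X : ℝ) / P w) := by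
  have hPw : 1 ≤ P w := Pool.Agent.H95RU.P_pos w
  have hc : 0 < (count w N (F k₀) : ℝ) := by
    by_contra hcon
    have h0 : (count w N (F k₀) : ℝ) = 0 := le_antisymm (not_lt.1 hcon) (Nat.cast_nonneg _)
    unfold NotCovered at hnc
    rw [h0, zero_mul] at hnc
    have : (1 : ℝ) ≤ N := by exact_mod_cast hN
    linarith
  have hV : 0 < V w y := by
    rw [V_eq]
    exact Pool.Agent.H95RU.Vt_pos w y
  have hE : 0 < V w y * count w N (F k₀) := mul_pos hV hc
  have h1 : ((range (X + 1)).filter (fun k => k ≡ k₀ [MOD P w] ∧ ¬ G k)).card ≤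
      1 + exceptions ε' w y N 0 (X / P w) F k₀ := by
    have h2 : (range (X + 1)).filter (fun k => k ≡ k₀ [MOD P w] ∧ ¬ G k) =
        (range (X + 1)).filter (fun k => k ≡ k₀ [MOD P w] ∧ (k ≤ X ∧ ¬ G k)) := by
      apply filter_congr
      intro k hk
      rw [mem_range] at hk
      constructor
      · rintro ⟨a1, a2⟩
        exact ⟨a1, by omega, a2⟩
      · rintro ⟨a1, _, a2⟩
        exact ⟨a1, a2⟩
    rw [h2]
    have h3 := Pool.Agent.H95RU.class_card X (P w) k₀ hPw hk₀ (fun k => k ≤ X ∧ ¬ G k)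
    have e1 : ((range (X + 1)).filter (fun k => k ≡ k₀ [MOD P w] ∧ (k ≤ X ∧ ¬ G k))).card ≤
        1 + ((Ioc 0 (0 + X / P w)).filter (fun j => k₀ + P w * j ≤ X ∧ ¬ G (k₀ + P w * j))).card := by
      refine le_of_eq_of_le ?_ (h3.trans (le_of_eq ?_)) <;> congr
    refine e1.trans ?_
    apply Nat.add_le_add_left
    unfold exceptions
    apply card_le_card
    intro j hj
    simp only [mem_filter] at hj ⊢
    refine ⟨hj.1, ?_⟩
    by_contra hcon
    push Not at hcon
    apply hj.2.2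
    have h3 := (abs_le.1 hcon).1
    have h4 : 0 < (count y N (F (k₀ + P w * j)) : ℝ) := by nlinarith
    have h5 : 0 < count y N (F (k₀ + P w * j)) := by exact_mod_cast h4
    unfold count at h5
    obtain ⟨n, hn⟩ := card_pos.1 h5
    rw [mem_filter] at hn
    exact hG _ hj.2.1 n hn.1 hn.2
  have h6 : (((range (X + 1)).filter (fun k => k ≡ k₀ [MOD P w] ∧ ¬ G k)).card : ℝ) ≤
      1 + (exceptions ε' w y N 0 (X / P w) F k₀ : ℝ) := by exact_mod_cast h1
  have h7 : ((X / P w : ℕ) : ℝ) ≤ (X : ℝ) / P w := Nat.cast_div_le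
  have h8 : ε' * ((X / P w : ℕ) : ℝ) ≤ ε / 2 * ((X : ℝ) / P w) :=
    mul_le_mul hεε h7 (Nat.cast_nonneg _) (by linarith)
  linarith

lemma R_lt (b n : ℕ) (hb : 2 ≤ b) : R b n < b ^ n := by
  induction n with
  | zero => simp [R]
  | succ n ih =>
    have h : R b (n + 1) = R b n + b ^ n := by
      unfold R
      rw [sum_range_succ]
    rw [h, pow_succ]
    nlinarith

/-- `b ^ n ≤ X ^ b` for `n ≤ log X` -/
lemma pow_le_of_log (b n X : ℕ) (hX : 1 ≤ X) (h : (n : ℝ) ≤ Real.log X) : b ^ n ≤ X ^ b := by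
  have hX0 : (0 : ℝ) < X := by exact_mod_cast hX
  have h1 : (b : ℝ) ≤ Real.exp b := (le_add_of_nonneg_right zero_le_one).trans (Real.add_one_le_exp _)
  have h2 : ((b : ℝ)) ^ n ≤ (X : ℝ) ^ b := by
    calc (b : ℝ) ^ n ≤ (Real.exp b) ^ n := pow_le_pow_left₀ (Nat.cast_nonneg _) h1 n
      _ = Real.exp (b * n) := by rw [← Real.exp_nat_mul]; ring_nf
      _ ≤ Real.exp (b * Real.log X) := Real.exp_le_exp.2 (mul_le_mul_of_nonneg_left h (Nat.cast_nonneg _))
      _ = (X : ℝ) ^ b := by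
          rw [← Real.rpow_natCast, Real.rpow_def_of_pos hX0]
          ring_nf
  exact_mod_cast h2

open Classical in
/-- the strings in front of the digits `1` -/
lemma partA (b : ℕ) (hb : 2 ≤ b) (ε : ℝ) (hε : 0 < ε) : ∃ w₀ : ℕ, ∀ w : ℕ, w₀ ≤ w → ∀ k₀ : ℕ,
    (∃ N₁ : ℕ, ∀ N : ℕ, N₁ ≤ N → NotCovered w N (followed b k₀)) → ∃ r X₀ : ℕ, ∀ X : ℕ, X₀ ≤ X →
      (((Icc 1 X).filter (fun k => k ≡ k₀ [MOD P w] ∧ ¬ ∃ n : ℕ, 1 ≤ n ∧ (n : ℝ) ≤ Real.log X ∧
        AlmostPrime r X (followed b k n))).card : ℝ) ≤ ε * ((X : ℝ) / P w) := by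
  obtain ⟨ε', hε'⟩ : ∃ ε' : ℝ, ε' = min (ε / 2) (1 / 2) := ⟨_, rfl⟩
  have hε'0 : 0 < ε' := by rw [hε']; positivity
  have hε'2 : ε' ≤ 1 / 2 := by rw [hε']; exact min_le_right _ _
  have hεε : ε' ≤ ε / 2 := by rw [hε']; exact min_le_left _ _
  obtain ⟨w₀, hbw, h⟩ := lib b hb ε' hε'0
  refine ⟨w₀, fun w hw k₁ hk₁ => ?_⟩
  obtain ⟨K, K₀, y₀, hK, h⟩ := h w hw
  obtain ⟨N₁, hN₁⟩ := hk₁
  have hPw : 1 ≤ P w := Pool.Agent.H95RU.P_pos w
  have hPr : (1 : ℝ) ≤ P w := by exact_mod_cast hPw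
  -- the reduced class
  obtain ⟨k₀, hk₀⟩ : ∃ k₀, k₀ = k₁ % P w := ⟨_, rfl⟩
  have hk₀P : k₀ < P w := by rw [hk₀]; exact Nat.mod_lt _ hPw
  have hk₁₀ : k₁ = k₀ + P w * (k₁ / P w) := by
    have := Nat.mod_add_div k₁ (P w)
    omega
  have hcount : ∀ N, NotCovered w N (followed b k₁) → NotCovered w N (followed b k₀) := by
    intro N hN
    obtain ⟨a, c, hfam, hac⟩ := famA hb (hbw.trans hw) k₀
    have e : count w N (followed b k₁) = count w N (followed b k₀) := by
      unfold count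
      congr 1
      apply filter_congr
      intro n _
      unfold Rough
      have h1 : ∀ p : ℕ, p.Prime → p ≤ w → (p ∣ followed b k₁ n ↔ p ∣ followed b k₀ n) := by
        intro p hp hpw
        have h2 := hfam.low n p (k₁ / P w) hp hpw
        rw [← hac, ← hk₁₀] at h2
        exact h2
      constructor
      · intro h3 p hp hpw
        rw [← h1 p hp hpw]
        exact h3 p hp hpw
      · intro h3 p hp hpw
        rw [h1 p hp hpw]
        exact h3 p hp hpw
    unfold NotCovered at hN ⊢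
    rw [← e]
    exact hN
  obtain ⟨r, hr, X₁, hX₁⟩ := Pool.Agent.H95RU.param K (1 / 2) K₀ y₀ (P w) (by norm_num) hPw
  have hlogt : Filter.Tendsto (fun X : ℕ => Real.log X) Filter.atTop Filter.atTop :=
    Real.tendsto_log_atTop.comp tendsto_natCast_atTop_atTop
  obtain ⟨X₂, hX₂⟩ := Filter.eventually_atTop.1 (hlogt.eventually_ge_atTop ((N₁ : ℝ) + 2))
  obtain ⟨X₃, hX₃⟩ := exists_nat_ge (2 / ε * P w)
  refine ⟨r * (b + 2), X₁ + X₂ + X₃ + 2, fun X hX => ?_⟩
  obtain ⟨y, hy1, hy2, hy3, hy4⟩ := hX₁ X (by omega)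
  have hl := hX₂ X (by omega)
  have hX1 : 1 ≤ X := by omega
  have hXr : (X₃ : ℝ) ≤ X := by exact_mod_cast (by omega : X₃ ≤ X)
  obtain ⟨N, hN⟩ : ∃ N, N = ⌊Real.log X⌋₊ := ⟨_, rfl⟩
  have hNN : N₁ + 1 ≤ N := by
    rw [hN]
    apply Nat.le_floor
    push_cast
    linarith
  have hN1r : (0 : ℝ) ≤ N₁ := Nat.cast_nonneg _
  have hNle : (N : ℝ) ≤ Real.log X := by rw [hN]; exact Nat.floor_le (by linarith)
  have hNge : 1 / 2 * Real.log X ≤ N := by
    have h1 : Real.log X < N + 1 := by rw [hN]; exact Nat.lt_floor_add_one _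
    linarith
  have hKN := hy4 N hNge
  rw [← V0_eq] at hKN
  have hnc := hcount N (hN₁ N (by omega))
  have hmain := concl ε ε' w y N X k₀ (followed b)
    (fun k => ∃ n : ℕ, 1 ≤ n ∧ (n : ℝ) ≤ Real.log X ∧ AlmostPrime (r * (b + 2)) X (followed b k n) ∨ k = 0)
    hk₀P hε'0 hε'2 hεε (h 0 (X / P w) y N hy1 hy2 hKN (followed b) k₀ (famA hb (hbw.trans hw) k₀) hnc)
    (by omega) hnc (by
      rw [div_mul_eq_mul_div, div_le_iff₀ hε] at hX₃
      rw [div_mul_div_comm, le_div_iff₀ (by positivity)]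
      nlinarith) (by
      intro k hk n hn hrough
      rcases Nat.eq_zero_or_pos k with h0 | h0
      · exact ⟨1, Or.inr h0⟩
      rw [mem_Icc] at hn
      have hnl : (n : ℝ) ≤ Real.log X := le_trans (by exact_mod_cast hn.2) hNle
      refine ⟨n, Or.inl ⟨hn.1, hnl, ?_⟩⟩
      have h1 : 1 ≤ followed b k n := by
        unfold followed
        have : 0 < k * b ^ n := Nat.mul_pos h0 (Nat.pow_pos (by omega))
        omega
      have h2 : followed b k n ≤ X ^ (b + 2) := by
        have h3 := pow_le_of_log b n X hX1 hnl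
        have h4 := R_lt b n hb
        have h5 : 2 ≤ X := by omega
        calc followed b k n ≤ X * X ^ b + X ^ b := by
              unfold followed
              exact Nat.add_le_add (Nat.mul_le_mul hk h3) (h4.le.trans h3)
          _ ≤ X * X ^ b + X * X ^ b := by
              apply Nat.add_le_add_left
              exact Nat.le_mul_of_pos_left _ hX1
          _ = 2 * (X * X ^ b) := by ring
          _ ≤ X * (X * X ^ b) := Nat.mul_le_mul_right _ h5
          _ = X ^ (b + 2) := by ring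
      exact Pool.Agent.H95RU.few_factors y r (b + 2) X _ h1 hr (by omega) hy3 h2 hrough)
  refine le_trans ?_ hmain
  norm_cast
  apply card_le_card
  intro k hk
  simp only [mem_filter] at hk ⊢
  rw [mem_Icc] at hk
  refine ⟨mem_range.2 (by omega), ?_, ?_⟩
  · have h1 : k ≡ k₁ [MOD P w] := hk.2.1
    have h2 : k₁ ≡ k₀ [MOD P w] := by
      rw [hk₀]
      exact (Nat.mod_modEq _ _).symm
    exact h1.trans h2
  · rintro ⟨n, hn⟩
    rcases hn with hn | hn
    · exact hk.2.2 ⟨n, hn⟩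
    · omega

open Classical in
/-- the strings behind the digits `1` -/
lemma partB (b : ℕ) (hb : 2 ≤ b) (ε : ℝ) (hε : 0 < ε) : ∃ w₀ : ℕ, ∀ w : ℕ, w₀ ≤ w → ∃ r L₀ : ℕ, ∀ L : ℕ, L₀ ≤ L →
      (((range (b ^ L)).filter (fun k => k ≡ R b L [MOD P w] ∧ ¬ ∃ n : ℕ, 1 ≤ n ∧ n ≤ L ∧
        AlmostPrime r (b ^ L) (preceded b L k n))).card : ℝ) ≤ ε * ((b : ℝ) ^ L / P w) := by
  obtain ⟨ε', hε'⟩ : ∃ ε' : ℝ, ε' = min (ε / 2) (1 / 2) := ⟨_, rfl⟩
  have hε'0 : 0 < ε' := by rw [hε']; positivity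
  have hε'2 : ε' ≤ 1 / 2 := by rw [hε']; exact min_le_right _ _
  have hεε : ε' ≤ ε / 2 := by rw [hε']; exact min_le_left _ _
  obtain ⟨w₀, hbw, h⟩ := lib b hb ε' hε'0
  obtain ⟨w₁, hclass⟩ := class_one b hb
  refine ⟨max w₀ w₁, fun w hw => ?_⟩
  obtain ⟨K, K₀, y₀, hK, h⟩ := h w ((le_max_left _ _).trans hw)
  obtain ⟨N₁, hN₁⟩ := hclass w ((le_max_right _ _).trans hw)
  have hPw : 1 ≤ P w := Pool.Agent.H95RU.P_pos w
  have hPr : (1 : ℝ) ≤ P w := by exact_mod_cast hPw
  have hbr : (1 : ℝ) < b := by exact_mod_cast (by omega : 1 < b)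
  have hlb : 0 < Real.log b := Real.log_pos hbr
  obtain ⟨r, hr, X₁, hX₁⟩ := Pool.Agent.H95RU.param K (1 / Real.log b) K₀ y₀ (P w) (by positivity) hPw
  obtain ⟨X₃, hX₃⟩ := exists_nat_ge (2 / ε * P w)
  refine ⟨r * 3, X₁ + X₃ + N₁ + 1, fun L hL => ?_⟩
  have hLb : L < b ^ L := Nat.lt_pow_self (by omega)
  obtain ⟨X, hX⟩ : ∃ X, X = b ^ L := ⟨_, rfl⟩
  rw [← hX] at hLb ⊢
  have hXc : ((b : ℝ)) ^ L = (X : ℝ) := by rw [hX]; push_cast; rfl
  rw [hXc]
  obtain ⟨y, hy1, hy2, hy3, hy4⟩ := hX₁ X (by omega)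
  have hXr : (X₃ : ℝ) ≤ X := by exact_mod_cast (by omega : X₃ ≤ X)
  have hlog : Real.log X = L * Real.log b := by rw [← hXc, Real.log_pow]
  have hKN := hy4 L (by
    rw [hlog]
    apply le_of_eq
    field_simp)
  rw [← V0_eq] at hKN
  obtain ⟨k₀, hk₀⟩ : ∃ k₀, k₀ = R b L % P w := ⟨_, rfl⟩
  have hk₀P : k₀ < P w := by rw [hk₀]; exact Nat.mod_lt _ hPw
  have hk₀c : k₀ ≡ R b L [MOD P w] := by
    rw [hk₀]
    exact Nat.mod_modEq _ _
  have hnc := (hN₁ L (by omega)).2 L k₀ (by omega) hk₀c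
  have hmain := concl ε ε' w y L X k₀ (preceded b L)
    (fun k => ∃ n : ℕ, 1 ≤ n ∧ n ≤ L ∧ AlmostPrime (r * 3) X (preceded b L k n))
    hk₀P hε'0 hε'2 hεε (h 0 (X / P w) y L hy1 hy2 hKN (preceded b L) k₀
      (famB hb (hbw.trans ((le_max_left _ _).trans hw)) L k₀) hnc)
    (by omega) hnc (by
      rw [div_mul_eq_mul_div, div_le_iff₀ hε] at hX₃
      rw [div_mul_div_comm, le_div_iff₀ (by positivity)]
      nlinarith) (by
      intro k hk n hn hrough
      rw [mem_Icc] at hn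
      refine ⟨n, hn.1, hn.2, ?_⟩
      have hR1 : 1 ≤ R b n := by
        obtain ⟨m, rfl⟩ : ∃ m, n = m + 1 := ⟨n - 1, by omega⟩
        unfold R
        rw [sum_range_succ']
        simp
      have hX2 : 2 ≤ X := by omega
      have h1 : 1 ≤ preceded b L k n := by
        unfold preceded
        have : 0 < R b n * b ^ L := Nat.mul_pos hR1 (Nat.pow_pos (by omega))
        omega
      have h2 : preceded b L k n ≤ X ^ 3 := by
        have h4 := R_lt b n hb
        have h5 : b ^ n ≤ X := by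
          rw [hX]
          exact Nat.pow_le_pow_right (by omega) hn.2
        calc preceded b L k n ≤ X * X + X := by
              unfold preceded
              rw [← hX]
              exact Nat.add_le_add (Nat.mul_le_mul_right _ (h4.le.trans h5)) hk
          _ ≤ X * X + X * X := by
              apply Nat.add_le_add_left
              exact Nat.le_mul_of_pos_left _ (by omega)
          _ = 2 * (X * X) := by ring
          _ ≤ X * (X * X) := Nat.mul_le_mul_right _ hX2
          _ = X ^ 3 := by ring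
      exact Pool.Agent.H95RU.few_factors y r 3 X _ h1 hr (by omega) hy3 h2 hrough)
  refine le_trans ?_ hmain
  norm_cast
  apply card_le_card
  intro k hk
  simp only [mem_filter] at hk ⊢
  rw [mem_range] at hk
  exact ⟨mem_range.2 (by omega), hk.2.1.trans hk₀c.symm, hk.2.2⟩

/-- **The law of large numbers for the almost primes among the numbers near the repunits.**

(1), (2): for `k = 1` the numbers `followed b k n` are the repunits with `n + 1` digits, and for `k = R b L` the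
numbers `preceded b L k n` are the repunits with `n + L` digits.

(3) Let `E` be the number of the `n ≤ N` for which `followed b k₀ n` has no prime factor up to `w`, times the product
of `1 - 1 / p` over the primes `w < p ≤ y`. If the first number is at least `w ^ (-1 / 20) N`, then for all but at
most `ε Y` of the `k = k₀ + P w * j`, `Z < j ≤ Z + Y`, the number of the `n ≤ N` for which `followed b k n` has no
prime factor up to `y` is between `(1 - ε) E` and `(1 + ε) E`. The same holds for `preceded b L k n`.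

(4) The residue classes of the repunits satisfy this hypothesis: that of `1` for `followed b k n`, and that of `R b L`
for `preceded b L k n`.

(5) For all but at most `ε X / P w` of the `k ≤ X` in the residue class of `k₀` modulo `P w` there is an
`n ≤ log X` for which `followed b k n` has at most `r` prime factors, all of them larger than `X ^ (1 / r)`; `k₀` is
any number which satisfies the hypothesis, for example `k₀ = 1`.

(6) For all but at most `ε b ^ L / P w` of the strings `k` of `L` digits in the residue class of the repunit `R b L`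
modulo `P w` there is an `n ≤ L` for which the number whose digits are `n` digits `1` followed by the string `k` has
at most `r` prime factors, all of them larger than `b ^ (L / r)`. -/
theorem result :
    (∀ b n : ℕ, followed b 1 n = R b (n + 1)) ∧
    (∀ b L n : ℕ, preceded b L (R b L) n = R b (n + L)) ∧
    (∀ b : ℕ, 2 ≤ b → ∀ ε : ℝ, 0 < ε → ∃ w₀ : ℕ, ∀ w : ℕ, w₀ ≤ w → ∃ (K : ℝ) (K₀ y₀ : ℕ),
      ∀ Z Y y N : ℕ, y₀ ≤ y → y ^ K₀ ≤ Y → K ≤ N * V 0 y →
        (∀ k₀ : ℕ, NotCovered w N (followed b k₀) →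
          (exceptions ε w y N Z Y (followed b) k₀ : ℝ) ≤ ε * Y) ∧
        (∀ L k₀ : ℕ, NotCovered w N (preceded b L k₀) →
          (exceptions ε w y N Z Y (preceded b L) k₀ : ℝ) ≤ ε * Y)) ∧
    (∀ b : ℕ, 2 ≤ b → ∃ w₁ : ℕ, ∀ w : ℕ, w₁ ≤ w → ∃ N₁ : ℕ, ∀ N : ℕ, N₁ ≤ N →
      NotCovered w N (followed b 1) ∧
        ∀ L k₀ : ℕ, 1 ≤ L → k₀ ≡ R b L [MOD P w] → NotCovered w N (preceded b L k₀)) ∧
    (∀ b : ℕ, 2 ≤ b → ∀ ε : ℝ, 0 < ε → ∃ w₀ : ℕ, ∀ w : ℕ, w₀ ≤ w → ∀ k₀ : ℕ,
      (∃ N₁ : ℕ, ∀ N : ℕ, N₁ ≤ N → NotCovered w N (followed b k₀)) → ∃ r X₀ : ℕ, ∀ X : ℕ, X₀ ≤ X →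
        ({k : ℕ | 1 ≤ k ∧ k ≤ X ∧ k ≡ k₀ [MOD P w] ∧ ¬ ∃ n : ℕ, 1 ≤ n ∧ (n : ℝ) ≤ Real.log X ∧
          AlmostPrime r X (followed b k n)}.ncard : ℝ) ≤ ε * ((X : ℝ) / P w)) ∧
    (∀ b : ℕ, 2 ≤ b → ∀ ε : ℝ, 0 < ε → ∃ w₀ : ℕ, ∀ w : ℕ, w₀ ≤ w → ∃ r L₀ : ℕ, ∀ L : ℕ, L₀ ≤ L →
        ({k : ℕ | k < b ^ L ∧ k ≡ R b L [MOD P w] ∧ ¬ ∃ n : ℕ, 1 ≤ n ∧ n ≤ L ∧
          AlmostPrime r (b ^ L) (preceded b L k n)}.ncard : ℝ) ≤ ε * ((b : ℝ) ^ L / P w)) := by
  classical
  refine ⟨?_, ?_, ?_, class_one, ?_, ?_⟩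
  · intro b n
    unfold followed
    rw [one_mul, R_eq, R_eq, Pool.Agent.H95RU.R_succ]
  · intro b L n
    unfold preceded
    rw [R_eq, R_eq, R_eq, Pool.Agent.H95RU.R_add]
  · intro b hb ε hε
    obtain ⟨w₀, hbw, h⟩ := lib b hb ε hε
    refine ⟨w₀, fun w hw => ?_⟩
    obtain ⟨K, K₀, y₀, _, h⟩ := h w hw
    refine ⟨K, K₀, y₀, fun Z Y y N h1 h2 h3 => ⟨fun k₀ hk => ?_, fun L k₀ hk => ?_⟩⟩
    · exact h Z Y y N h1 h2 h3 (followed b) k₀ (famA hb (hbw.trans hw) k₀) hk
    · exact h Z Y y N h1 h2 h3 (preceded b L) k₀ (famB hb (hbw.trans hw) L k₀) hk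
  · intro b hb ε hε
    obtain ⟨w₀, h⟩ := partA b hb ε hε
    refine ⟨w₀, fun w hw k₀ hk => ?_⟩
    obtain ⟨r, X₀, h⟩ := h w hw k₀ hk
    refine ⟨r, X₀, fun X hX => ?_⟩
    refine le_of_eq_of_le ?_ (h X hX)
    rw [← Set.ncard_coe_finset]
    congr 2
    ext k
    simp only [coe_filter, mem_Icc, Set.mem_ofPred_eq]
    constructor
    · rintro ⟨h1, h2, h3⟩
      exact ⟨⟨h1, h2⟩, h3⟩
    · rintro ⟨⟨h1, h2⟩, h3⟩
      exact ⟨h1, h2, h3⟩
  · intro b hb ε hε
    obtain ⟨w₀, h⟩ := partB b hb ε hε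
    refine ⟨w₀, fun w hw => ?_⟩
    obtain ⟨r, L₀, h⟩ := h w hw
    refine ⟨r, L₀, fun L hL => ?_⟩
    refine le_of_eq_of_le ?_ (h L hL)
    rw [← Set.ncard_coe_finset]
    congr 2
    ext k
    simp only [coe_filter, mem_range, Set.mem_ofPred_eq]

end Pool.Agent.Results.MP_adea1b_nt.NumbersNearRepunits
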