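import Pool.Agent.H95RU.Poi
import Pool.Agent.H95RU.FamR
import Pool.Agent.H95RU.TAU
import Pool.Agent.H95RU.AVX
import Pool.Agent.H95RU.DAVK
import Pool.Agent.H95RU.UPK
import Pool.Agent.H95RU.LOK
import Pool.Agent.H95RU.COMB
import Pool.Agent.H95RU.MOMK
import Pool.Agent.H95RU.CNT
import Pool.Agent.H95RU.Fam4
import Pool.Agent.H95RU.COMBP
import Pool.Agent.H95RU.MOMP
import Pool.Agent.H95RU.PAIR

/-!
# The Poisson law for the numbers near the repunits: a string of digits followed (or preceded) by ones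

`R b n` is the repunit with `n` digits in base `b`. For an integer `k ≥ 1` consider the numbers whose digits in base
`b` are the digits of `k` followed by `n` digits `1`, `n = 1, 2, 3, …`. For `k = 1` these are the repunits of the
question. If `k = 1` modulo the product `P w` of the primes up to `w`, then they have the same divisibility by the
primes up to `w` as the repunits `R b (n + 1)`. The same holds for the numbers whose digits are `n` digits `1`
followed by a string `k` of `L` digits, if `k = R b L` modulo `P w`, with the repunits `R b (n + L)`.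

According to the usual heuristics the lengths of the repunit primes form a Poisson process. We prove a Poisson law
with sieve conditions: call `n` good for `k` if the number `k` followed by `n` ones has no prime factor up to `y`. Let
`E` be the number of the `n ≤ N` for which the repunit has no prime factor up to `w`, times the product of `1 - 1 / p`
over the primes `w < p ≤ y`. Then the number of the good `n ≤ N` has the Poisson distribution with mean `E`, up to `ε`
in total variation, when `k` runs through the residue class of `1` modulo `P w` in any interval whose length is a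
power of `y`; uniformly in `N` and `y` as long as `E` is bounded. In particular the least good `n` has asymptotically
an exponential distribution. The same holds in every residue class which is not nearly covered, and for the strings
behind the ones.

A repunit can be prime only if the number of its digits is a prime. We prove the same law, and also the law of large
numbers, for the prime lengths: the number of the primes `q ≤ N` for which the number `k` followed by `q - 1` ones
has no prime factor up to `y` has the Poisson distribution, up to `ε` in total variation, if the expected number is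
bounded, and is for almost all `k` asymptotically the expected number if this is large; for `k = 1` these are the
repunits with `q` digits.

The hand-in `NumbersNearRepunits` is the law of large numbers for `E → ∞` for all lengths; here `E` is bounded. Method: the binomial
moments; the correlations of `r` lengths are products over the pairs of lengths, up to the tails of singular series
which are controlled by Romanoff's method with arbitrary powers; for the prime lengths together with the upper bound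
of the sieve for the pairs of primes with a given difference.

Stubs proved by helper9 (TAU), helper21 (AVX), helper69 (DAVK), helper1 (UPK), helper96 (LOK), helper45 (COMB),
helper93 (MOMK), helper66 (CNT), helper72 (COMBP), helper86 (MOMP) and helper77 (PAIR); design and assembly
helper95. Libraries of the starting files:
`Pool.Agent.Y820.LT` (Romanoff's sum with arbitrary powers), `Pool.Agent.H373R2.T7` (fundamental lemma),
`Pool.Agent.TH464.PO` (from binomial moments to the Poisson law).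
-/

set_option autoImplicit false

namespace Pool.Agent.Results.MP_adea1b_nt.PoissonLaw

open Finset

/-- The repunit with `n` digits in base `b`. -/
def R (b n : ℕ) : ℕ := ∑ i ∈ range n, b ^ i

/-- The number whose digits in base `b` are the digits of `k` followed by `n` digits `1`. -/
def followed (b k n : ℕ) : ℕ := k * b ^ n + R b n

/-- The number whose digits in base `b` are `n` digits `1` followed by the `L` digits of `k` (for `k < b ^ L`,
written with leading zeros if necessary). -/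
def preceded (b L k n : ℕ) : ℕ := R b n * b ^ L + k

/-- `m` has no prime factor up to `y`. -/
def Rough (y m : ℕ) : Prop := ∀ p : ℕ, p.Prime → p ≤ y → ¬ p ∣ m

/-- The product of the primes up to `w`. -/
def P (w : ℕ) : ℕ := ∏ p ∈ (Icc 1 w).filter Nat.Prime, p

/-- The product of `1 - 1 / p` over the primes `w < p ≤ y`. -/
noncomputable def V (w y : ℕ) : ℝ := ∏ p ∈ (Icc 1 y).filter (fun p => p.Prime ∧ w < p), (1 - 1 / (p : ℝ))

open Classical in
/-- The number of the `n` with `1 ≤ n ≤ N` for which `f n` has no prime factor up to `y`. -/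
noncomputable def count (y N : ℕ) (f : ℕ → ℕ) : ℕ := ((Icc 1 N).filter (fun n => Rough y (f n))).card

/-- At least the proportion `w ^ (-1 / 20)` of the `f n`, `1 ≤ n ≤ N`, has no prime factor up to `w`. -/
def NotCovered (w N : ℕ) (f : ℕ → ℕ) : Prop := (N : ℝ) ≤ count w N f * (w : ℝ) ^ (1 / 20 : ℝ)

/-- The expected number: the number of the `n ≤ N` for which `f n` has no prime factor up to `w`, times the product
of `1 - 1 / p` over the primes `w < p ≤ y`. -/
noncomputable def mean (w y N : ℕ) (f : ℕ → ℕ) : ℝ := V w y * count w N f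

/-- The probability that a Poisson variable with mean `x` has a value in `A`. -/
noncomputable def poisson (x : ℝ) (A : Finset ℕ) : ℝ := ∑ i ∈ A, Real.exp (-x) * x ^ i / i.factorial

open Classical in
/-- The number of the `j` with `Z < j ≤ Z + Y` for which the number of the `n ≤ N` for which `F (k₀ + P w * j) n` has
no prime factor up to `y` lies in `A`. -/
noncomputable def number (w y N Z Y : ℕ) (F : ℕ → ℕ → ℕ) (k₀ : ℕ) (A : Finset ℕ) : ℕ :=
  ((Ioc Z (Z + Y)).filter (fun j => count y N (F (k₀ + P w * j)) ∈ A)).card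

open Classical in
/-- The number of the primes `q ≤ N` for which `followed b k (q - 1)` has no prime factor up to `y`; for `k = 1` these
are the repunits with `q` digits. -/
noncomputable def primeLengths (b y N k : ℕ) : ℕ :=
  ((Icc 1 N).filter (fun q => q.Prime ∧ Rough y (followed b k (q - 1)))).card

/-- For at least the proportion `w ^ (-1 / 40)` of the primes `q ≤ N` the number `followed b k (q - 1)` has no prime
factor up to `w`. -/
def PrimeNotCovered (b w N k : ℕ) : Prop :=
  (((Icc 1 N).filter Nat.Prime).card : ℝ) ≤ primeLengths b w N k * (w : ℝ) ^ (1 / 40 : ℝ)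

/-- The expected number for the prime lengths. -/
noncomputable def primeMean (b w y N k : ℕ) : ℝ := V w y * primeLengths b w N k

open Classical in
/-- The number of the `j` with `Z < j ≤ Z + Y` for which `primeLengths b y N (k₀ + P w * j)` lies in `A`. -/
noncomputable def primeNumber (b w y N Z Y k₀ : ℕ) (A : Finset ℕ) : ℕ :=
  ((Ioc Z (Z + Y)).filter (fun j => primeLengths b y N (k₀ + P w * j) ∈ A)).card

open Classical in
/-- The number of the `j` with `Z < j ≤ Z + Y` for which `primeLengths b y N (k₀ + P w * j)` differs from the expected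
number by more than the factor `1 ± ε`. -/
noncomputable def primeExceptions (ε : ℝ) (b w y N Z Y k₀ : ℕ) : ℕ :=
  ((Ioc Z (Z + Y)).filter (fun j =>
    ε * primeMean b w y N k₀ < |(primeLengths b y N (k₀ + P w * j) : ℝ) - primeMean b w y N k₀|)).card

lemma V_eq (w y : ℕ) : V w y = Pool.Agent.H95RU.Vt w y := rfl

open Classical in
lemma count_eq (y N : ℕ) (f : ℕ → ℕ) :
    count y N f = ((Icc 1 N).filter (fun n => Pool.Agent.H95RU.Rough y (f n))).card := by
  unfold count
  rfl

lemma P_eq (w : ℕ) : P w = Pool.Agent.H95RU.P w := rfl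

lemma R_eq (b n : ℕ) : R b n = Pool.Agent.H95RU.R b n := rfl

/-- the library theorem -/
lemma lib (b : ℕ) (hb : 2 ≤ b) (x₀ ε : ℝ) (hx₀ : 0 ≤ x₀) (hε : 0 < ε) :
    ∃ w₀ : ℕ, b ≤ w₀ ∧ ∀ w : ℕ, w₀ ≤ w → ∃ K₀ y₀ N₀ : ℕ, ∀ Z Y y N : ℕ, y₀ ≤ y → y ^ K₀ ≤ Y → N₀ ≤ N →
      ∀ (F : ℕ → ℕ → ℕ) (k₀ : ℕ),
        (∃ a c : ℕ → ℕ, Pool.Agent.H95RU.FamR b w a c (F k₀) ∧ ∀ n j, F (k₀ + P w * j) n = a n + c n * j) →
        NotCovered w N (F k₀) → mean w y N (F k₀) ≤ x₀ → ∀ A : Finset ℕ,
          |(number w y N Z Y F k₀ A : ℝ) - Y * poisson (mean w y N (F k₀)) A| ≤ ε * Y := by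
  classical
  obtain ⟨w₀, h⟩ := Pool.Agent.H95RU.poiR
    (Pool.Agent.H95RU.t_MOMK (Pool.Agent.H95RU.t_DAVK (Pool.Agent.H95RU.t_AVX Pool.Agent.H95RU.t_TAU))
      Pool.Agent.H95RU.t_UPK Pool.Agent.H95RU.t_LOK Pool.Agent.H95RU.t_COMB) b hb x₀ ε hx₀ hε
  refine ⟨max w₀ b, le_max_right _ _, fun w hw => ?_⟩
  obtain ⟨K₀, y₀, N₀, h⟩ := h w ((le_max_left _ _).trans hw)
  refine ⟨K₀, y₀, N₀, fun Z Y y N h1 h2 h3 F k₀ hF hN hE A => ?_⟩
  obtain ⟨a, c, hfam, hac⟩ := hF
  unfold mean at hE ⊢
  unfold NotCovered at hN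
  rw [count_eq] at hN hE
  have h4 := h Z Y y N h1 h2 h3 a c (F k₀) hfam hN hE A
  rw [count_eq]
  refine le_of_eq_of_le ?_ h4
  unfold poisson number
  congr 3
  apply congrArg
  ext j
  simp only [mem_filter]
  apply and_congr_right
  intro _
  have h7 : F (k₀ + P w * j) = fun n => a n + c n * j := funext fun n => hac n j
  rw [h7, count_eq]

lemma famA {b w : ℕ} (hb : 2 ≤ b) (hw : b ≤ w) (k₀ : ℕ) :
    ∃ a c : ℕ → ℕ, Pool.Agent.H95RU.FamR b w a c (followed b k₀) ∧
      ∀ n j, followed b (k₀ + P w * j) n = a n + c n * j := by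
  refine ⟨_, _, Pool.Agent.H95RU.famRA hb hw k₀, fun n j => ?_⟩
  unfold followed
  rw [P_eq, R_eq]
  ring

lemma famB {b w : ℕ} (hb : 2 ≤ b) (hw : b ≤ w) (L k₀ : ℕ) :
    ∃ a c : ℕ → ℕ, Pool.Agent.H95RU.FamR b w a c (preceded b L k₀) ∧
      ∀ n j, preceded b L (k₀ + P w * j) n = a n + c n * j := by
  refine ⟨_, _, Pool.Agent.H95RU.famRB hb hw L k₀, fun n j => ?_⟩
  unfold preceded
  rw [P_eq, R_eq]
  ring

/-- the repunits -/
lemma class_one (b : ℕ) (hb : 2 ≤ b) : ∃ w₁ : ℕ, ∀ w : ℕ, w₁ ≤ w → ∃ N₁ : ℕ, ∀ N : ℕ, N₁ ≤ N →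
    NotCovered w N (followed b 1) ∧
      ∀ L k₀ : ℕ, 1 ≤ L → k₀ ≡ R b L [MOD P w] → NotCovered w N (preceded b L k₀) := by
  obtain ⟨w₁, h⟩ := Pool.Agent.H95RU.repunit_class Pool.Agent.H95RU.t_CNT b hb
  refine ⟨w₁, fun w hw => ?_⟩
  obtain ⟨N₁, h⟩ := h w hw
  refine ⟨N₁, fun N hN => ⟨?_, fun L k₀ hL hk => ?_⟩⟩
  · unfold NotCovered
    rw [count_eq]
    refine h N hN 1 _ le_rfl fun n p _ _ => ?_
    unfold followed
    rw [one_mul, R_eq, ← Pool.Agent.H95RU.R_succ]
  · unfold NotCovered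
    rw [count_eq]
    refine h N hN L _ hL fun n p hp hpw => ?_
    unfold preceded
    have h1 : Pool.Agent.H95RU.R b (n + L) = R b n * b ^ L + R b L := by
      rw [R_eq, R_eq, Pool.Agent.H95RU.R_add]
    rw [h1]
    have h2 : R b n * b ^ L + k₀ ≡ R b n * b ^ L + R b L [MOD p] := by
      apply Nat.ModEq.add_left
      exact hk.of_dvd (Pool.Agent.H95RU.dvd_P hp hpw)
    exact h2.dvd_iff dvd_rfl

open Classical in
lemma lengths_eq (b y N k : ℕ) (g : ℕ → ℕ) (hg : ∀ q, followed b k (q - 1) = g q) :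
    primeLengths b y N k = (Pool.Agent.H95RU.GG y N (fun _ => True) g).card := by
  unfold primeLengths
  congr 1
  ext q
  rw [mem_filter, Pool.Agent.H95RU.mem_GG, hg q]
  unfold Rough Pool.Agent.H95RU.Rough
  tauto

lemma step (b k₀ w j q : ℕ) : followed b (k₀ + P w * j) (q - 1) =
    k₀ * b ^ (q - 1) + Pool.Agent.H95RU.R b (q - 1) + P w * b ^ (q - 1) * j := by
  unfold followed
  rw [R_eq]
  ring

lemma momp : Pool.Agent.H95RU.S_MOMP :=
  Pool.Agent.H95RU.t_MOMP Pool.Agent.H95RU.t_UPK Pool.Agent.H95RU.t_LOK Pool.Agent.H95RU.t_COMBP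

lemma pair : Pool.Agent.H95RU.S_PAIR :=
  Pool.Agent.H95RU.t_PAIR (Pool.Agent.H95RU.t_DAVK (Pool.Agent.H95RU.t_AVX Pool.Agent.H95RU.t_TAU))

lemma plln (b : ℕ) (hb : 2 ≤ b) (ε : ℝ) (hε : 0 < ε) : ∃ (K : ℝ) (w₀ : ℕ), ∀ w : ℕ, w₀ ≤ w →
    ∃ K₀ y₀ N₀ : ℕ, ∀ Z Y y N : ℕ, y₀ ≤ y → y ^ K₀ ≤ Y → N₀ ≤ N → ∀ k₀ : ℕ, PrimeNotCovered b w N k₀ →
      K ≤ primeMean b w y N k₀ → (primeExceptions ε b w y N Z Y k₀ : ℝ) ≤ ε * Y := by
  classical
  obtain ⟨K, w₀, h⟩ := Pool.Agent.H95RU.genLLN momp pair b hb ε hε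
  refine ⟨K, max w₀ b, fun w hw => ?_⟩
  obtain ⟨K₀, y₀, N₀, h⟩ := h w ((le_max_left _ _).trans hw)
  have hw2 : b ≤ w := (le_max_right _ _).trans hw
  refine ⟨K₀, y₀, N₀, fun Z Y y N h1 h2 h3 k₀ hN hE => ?_⟩
  have hE0 := lengths_eq b w N k₀ (fun q => k₀ * b ^ (q - 1) + Pool.Agent.H95RU.R b (q - 1)) (fun q => rfl)
  unfold PrimeNotCovered at hN
  unfold primeMean at hE
  rw [hE0] at hN hE
  have h4 := h Z Y y N h1 h2 h3 (fun _ => True) _ _ (Pool.Agent.H95RU.fam4_R hb hw2 k₀) hN hE
  refine le_of_eq_of_le ?_ h4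
  unfold primeExceptions primeMean
  rw [hE0]
  apply congrArg
  apply congrArg
  ext j
  rw [mem_filter, mem_filter, lengths_eq b y N (k₀ + P w * j)
    (fun q => k₀ * b ^ (q - 1) + Pool.Agent.H95RU.R b (q - 1) + P w * b ^ (q - 1) * j)
    (fun q => step b k₀ w j q)]
  exact Iff.rfl

lemma ppoi (b : ℕ) (hb : 2 ≤ b) (x₀ ε : ℝ) (hx₀ : 0 ≤ x₀) (hε : 0 < ε) : ∃ w₀ : ℕ, ∀ w : ℕ, w₀ ≤ w →
    ∃ K₀ y₀ N₀ : ℕ, ∀ Z Y y N : ℕ, y₀ ≤ y → y ^ K₀ ≤ Y → N₀ ≤ N → ∀ k₀ : ℕ, PrimeNotCovered b w N k₀ →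
      primeMean b w y N k₀ ≤ x₀ → ∀ A : Finset ℕ,
        |(primeNumber b w y N Z Y k₀ A : ℝ) - Y * poisson (primeMean b w y N k₀) A| ≤ ε * Y := by
  classical
  obtain ⟨w₀, h⟩ := Pool.Agent.H95RU.genPoi momp pair b hb x₀ ε hx₀ hε
  refine ⟨max w₀ b, fun w hw => ?_⟩
  obtain ⟨K₀, y₀, N₀, h⟩ := h w ((le_max_left _ _).trans hw)
  have hw2 : b ≤ w := (le_max_right _ _).trans hw
  refine ⟨K₀, y₀, N₀, fun Z Y y N h1 h2 h3 k₀ hN hE A => ?_⟩
  have hE0 := lengths_eq b w N k₀ (fun q => k₀ * b ^ (q - 1) + Pool.Agent.H95RU.R b (q - 1)) (fun q => rfl)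
  unfold PrimeNotCovered at hN
  unfold primeMean at hE ⊢
  rw [hE0] at hN hE ⊢
  have h4 := h Z Y y N h1 h2 h3 (fun _ => True) _ _ (Pool.Agent.H95RU.fam4_R hb hw2 k₀) hN hE A
  refine le_of_eq_of_le ?_ h4
  unfold poisson primeNumber
  congr 3
  apply congrArg
  ext j
  rw [mem_filter, mem_filter, lengths_eq b y N (k₀ + P w * j)
    (fun q => k₀ * b ^ (q - 1) + Pool.Agent.H95RU.R b (q - 1) + P w * b ^ (q - 1) * j)
    (fun q => step b k₀ w j q)]
  exact Iff.rfl

lemma pclass (b : ℕ) (hb : 2 ≤ b) (w : ℕ) (hw : 2 ≤ w) : ∃ N₁ : ℕ, ∀ N : ℕ, N₁ ≤ N →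
    PrimeNotCovered b w N 1 := by
  classical
  obtain ⟨N₁, h⟩ := Pool.Agent.H95RU.notcov4 w hw
  refine ⟨N₁, fun N hN => ?_⟩
  have hE0 := lengths_eq b w N 1 (fun q => 1 * b ^ (q - 1) + Pool.Agent.H95RU.R b (q - 1)) (fun q => rfl)
  unfold PrimeNotCovered
  rw [hE0]
  refine h N hN _ fun q hq hwq => ?_
  unfold Pool.Agent.H95RU.prm at hq
  rw [mem_filter] at hq
  rw [Pool.Agent.H95RU.mem_GG]
  exact ⟨hq.1, hq.2, trivial, Pool.Agent.H95RU.rough_R4 hb hq.2 hwq⟩

/-- **The Poisson law for the numbers near the repunits.**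

(1), (2): for `k = 1` the numbers `followed b k n` are the repunits with `n + 1` digits, and for `k = R b L` the
numbers `preceded b L k n` are the repunits with `n + L` digits.

(3) Suppose that at least the proportion `w ^ (-1 / 20)` of the numbers `followed b k₀ n`, `n ≤ N`, has no prime
factor up to `w`, and let `E = mean w y N (followed b k₀)` be at most `x₀`. When `k` runs through the numbers
`k₀ + P w * j`, `Z < j ≤ Z + Y`, the number of the `n ≤ N` for which `followed b k n` has no prime factor up to `y`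
lies in `A` with the probability that a Poisson variable with mean `E` lies in `A`, up to `ε`, for all finite sets
`A` of natural numbers. The same holds for `preceded b L k n`.

(4) The residue classes of the repunits satisfy this hypothesis: that of `1` for `followed b k n`, and that of `R b L`
for `preceded b L k n`.

(5) Prime lengths: suppose that for at least the proportion `w ^ (-1 / 40)` of the primes `q ≤ N` the number
`followed b k₀ (q - 1)` has no prime factor up to `w`. The Poisson law holds for the number `primeLengths b y N k` of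
the primes `q ≤ N` for which `followed b k (q - 1)` has no prime factor up to `y`, if `primeMean b w y N k₀ ≤ x₀`.

(6) If `primeMean b w y N k₀` is at least `K`, then `primeLengths b y N k` is up to the factor `1 ± ε` the expected
number `primeMean b w y N k₀`, for all `k` with at most `ε Y` exceptions.

(7) The class of `1` satisfies the hypothesis of (5) and (6): the repunits with `q` digits, `q > w` prime, have no
prime factor up to `w`. -/
theorem result :
    (∀ b n : ℕ, followed b 1 n = R b (n + 1)) ∧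
    (∀ b L n : ℕ, preceded b L (R b L) n = R b (n + L)) ∧
    (∀ b : ℕ, 2 ≤ b → ∀ x₀ ε : ℝ, 0 ≤ x₀ → 0 < ε → ∃ w₀ : ℕ, ∀ w : ℕ, w₀ ≤ w → ∃ K₀ y₀ N₀ : ℕ,
      ∀ Z Y y N : ℕ, y₀ ≤ y → y ^ K₀ ≤ Y → N₀ ≤ N →
        (∀ k₀ : ℕ, NotCovered w N (followed b k₀) → mean w y N (followed b k₀) ≤ x₀ → ∀ A : Finset ℕ,
          |(number w y N Z Y (followed b) k₀ A : ℝ) - Y * poisson (mean w y N (followed b k₀)) A| ≤ ε * Y) ∧
        (∀ L k₀ : ℕ, NotCovered w N (preceded b L k₀) → mean w y N (preceded b L k₀) ≤ x₀ → ∀ A : Finset ℕ,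
          |(number w y N Z Y (preceded b L) k₀ A : ℝ) - Y * poisson (mean w y N (preceded b L k₀)) A| ≤
            ε * Y)) ∧
    (∀ b : ℕ, 2 ≤ b → ∃ w₁ : ℕ, ∀ w : ℕ, w₁ ≤ w → ∃ N₁ : ℕ, ∀ N : ℕ, N₁ ≤ N →
      NotCovered w N (followed b 1) ∧
        ∀ L k₀ : ℕ, 1 ≤ L → k₀ ≡ R b L [MOD P w] → NotCovered w N (preceded b L k₀)) ∧
    (∀ b : ℕ, 2 ≤ b → ∀ x₀ ε : ℝ, 0 ≤ x₀ → 0 < ε → ∃ w₀ : ℕ, ∀ w : ℕ, w₀ ≤ w → ∃ K₀ y₀ N₀ : ℕ,
      ∀ Z Y y N : ℕ, y₀ ≤ y → y ^ K₀ ≤ Y → N₀ ≤ N → ∀ k₀ : ℕ, PrimeNotCovered b w N k₀ →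
        primeMean b w y N k₀ ≤ x₀ → ∀ A : Finset ℕ,
          |(primeNumber b w y N Z Y k₀ A : ℝ) - Y * poisson (primeMean b w y N k₀) A| ≤ ε * Y) ∧
    (∀ b : ℕ, 2 ≤ b → ∀ ε : ℝ, 0 < ε → ∃ (K : ℝ) (w₀ : ℕ), ∀ w : ℕ, w₀ ≤ w → ∃ K₀ y₀ N₀ : ℕ,
      ∀ Z Y y N : ℕ, y₀ ≤ y → y ^ K₀ ≤ Y → N₀ ≤ N → ∀ k₀ : ℕ, PrimeNotCovered b w N k₀ →
        K ≤ primeMean b w y N k₀ → (primeExceptions ε b w y N Z Y k₀ : ℝ) ≤ ε * Y) ∧
    (∀ b : ℕ, 2 ≤ b → ∀ w : ℕ, 2 ≤ w → ∃ N₁ : ℕ, ∀ N : ℕ, N₁ ≤ N → PrimeNotCovered b w N 1) := by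
  refine ⟨?_, ?_, ?_, class_one, ppoi, plln, pclass⟩
  · intro b n
    unfold followed
    rw [one_mul, R_eq, R_eq, Pool.Agent.H95RU.R_succ]
  · intro b L n
    unfold preceded
    rw [R_eq, R_eq, R_eq, Pool.Agent.H95RU.R_add]
  · intro b hb x₀ ε hx₀ hε
    obtain ⟨w₀, hbw, h⟩ := lib b hb x₀ ε hx₀ hε
    refine ⟨w₀, fun w hw => ?_⟩
    obtain ⟨K₀, y₀, N₀, h⟩ := h w hw
    refine ⟨K₀, y₀, N₀, fun Z Y y N h1 h2 h3 => ⟨fun k₀ hk hE A => ?_, fun L k₀ hk hE A => ?_⟩⟩
    · exact h Z Y y N h1 h2 h3 (followed b) k₀ (famA hb (hbw.trans hw) k₀) hk hE A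
    · exact h Z Y y N h1 h2 h3 (preceded b L) k₀ (famB hb (hbw.trans hw) L k₀) hk hE A

end Pool.Agent.Results.MP_adea1b_nt.PoissonLaw
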