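import Pool.Agent.H95RU.Main3
import Pool.Agent.H95RU.COND
import Pool.Agent.H95RU.LINM
import Pool.Agent.H95RU.FST
import Pool.Agent.H95RU.UPP
import Pool.Agent.H95RU.DYA
import Pool.Agent.H95RU.CSW
import Pool.Agent.H95RU.TAU
import Pool.Agent.H95RU.AVX
import Pool.Agent.H95RU.ROM
import Pool.Agent.H95RU.DAV
import Pool.Agent.H95RU.CNT
import Pool.Agent.H95RU.ONE
import Pool.Agent.H95RU.TWO

/-!
# Primes near the repunits: a number followed by ones

`R b n` is the repunit with `n` digits in base `b`, and `followed b k n` is the number whose digits in base `b` are
the digits of `k` followed by `n` digits `1`. For `k = 1` these are the repunits of the question. If `k = 1` modulo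
the product `P w` of the primes up to `w`, then they have the same residues modulo the primes up to `w` as the
repunits `R b (n + 1)`.

We prove: there is a constant `c > 0`, which depends only on the base, such that for every `w` the integers `k` which
are `1` modulo `P w`, and for which `followed b k n` is prime for some `1 ≤ n ≤ log k`, have the lower logarithmic
density at least `c / P w`, that is at least the proportion `c` of the residue class, however large `w` is.

Method: a lower bound for the number of the `n` (primes in residue classes to the large moduli `b ^ n P w`, with the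
lower bound of Linnik's type for moduli without exceptional characters: all prime factors of the modulus are
bounded), an upper bound for the correlations of two lengths (sieve), and Romanoff's method with a power saving
`w ^ (-1 / 8)` in the tail of the singular series, which makes the loss of the factor `log w` in the number of the
admissible lengths harmless.

Stubs proved by helper67 (CON), helper95 (LINM), helper57 (FST), helper93 (UPP), helper96 (DYA), helper47 (CSW),
helper9 (TAU), helper21 (AVX), helper85 (ROM, DAV), helper66 (CNT), helper33 (ONE), helper86 (TWO); design and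
assembly helper95. Libraries of the starting files: `Pool.Agent.Y353.PS` (lower bounds for primes in residue
classes), `Pool.Agent.Y820.LT` (Romanoff's sum with arbitrary powers), `Pool.Agent.H373R2.T7` (fundamental lemma).
-/

set_option autoImplicit false

namespace Pool.Agent.Results.MP_adea1b_nt.PrimesNearRepunits

open Finset

/-- The repunit with `n` digits in base `b`. -/
def R (b n : ℕ) : ℕ := ∑ i ∈ range n, b ^ i

/-- The number whose digits in base `b` are the digits of `k` followed by `n` digits `1`. -/
def followed (b k n : ℕ) : ℕ := k * b ^ n + R b n

/-- The product of the primes up to `w`. -/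
def P (w : ℕ) : ℕ := ∏ p ∈ (Icc 1 w).filter Nat.Prime, p

open Classical in
/-- The integers `1 ≤ k ≤ X` with `k = 1` modulo `P w` for which `followed b k n` is prime for some `n` with
`1 ≤ n ≤ log k`. -/
noncomputable def good (b w X : ℕ) : Finset ℕ :=
  (Icc 1 X).filter (fun k => k ≡ 1 [MOD P w] ∧ ∃ n : ℕ, 1 ≤ n ∧ (n : ℝ) ≤ Real.log k ∧ (followed b k n).Prime)

/-- **Primes near the repunits.**

(1) For `k = 1` the number `followed b k n` is the repunit with `n + 1` digits.

(2) For every base `b ≥ 2` there is a constant `c > 0` such that for all `w` and all large `X` (depending on `b` and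
`w`) the sum of `1 / k` over the integers `k ≤ X` which are `1` modulo `P w`, and for which `followed b k n` is prime
for some `1 ≤ n ≤ log k`, is at least `c log X / P w`. -/
theorem result :
    (∀ b n : ℕ, followed b 1 n = R b (n + 1)) ∧
    (∀ b : ℕ, 2 ≤ b → ∃ c : ℝ, 0 < c ∧ ∀ w : ℕ, ∃ X₀ : ℕ, ∀ X : ℕ, X₀ ≤ X →
      c * Real.log X / P w ≤ ∑ k ∈ good b w X, (1 : ℝ) / k) := by
  constructor
  · intro b n
    unfold followed R
    rw [one_mul, Finset.sum_range_succ, add_comm]
  · intro b hb
    exact Pool.Agent.H95RU.main3
      (Pool.Agent.H95RU.t_FST (Pool.Agent.H95RU.t_LINM Pool.Agent.H95RU.t_CON))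
      (Pool.Agent.H95RU.t_DYA (Pool.Agent.H95RU.t_UPP Pool.Agent.H95RU.t_ONE Pool.Agent.H95RU.t_TWO))
      Pool.Agent.H95RU.t_CSW Pool.Agent.H95RU.t_CNT
      (Pool.Agent.H95RU.t_DAV (Pool.Agent.H95RU.t_AVX Pool.Agent.H95RU.t_TAU) Pool.Agent.H95RU.t_ROM) b hb

end Pool.Agent.Results.MP_adea1b_nt.PrimesNearRepunits
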